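import Pool.Agent.K3h44.RQ.Stm
import Pool.Agent.Y125.WQ.UNIT

set_option autoImplicit false

/-!
Project RQ (helper44), job RQ-UNITM: the Stickelberger relation belonging to `a`, for order `m`.
-/

namespace Pool.Agent.K3h55.RQ

open NumberField IsDedekindDomain HeightOneSpectrum
open Pool.Agent.K3h44.RQ
open Pool.Agent.Y125.WQ (exp_sum val_ext)
open WithZero (exp)

variable {m : ℕ} [NeZero m] {F : Type} [Field F] [NumberField F]

lemma rsM_coe (c : CycM m F) (t : (ZMod m)ˣ) (y : 𝓞 F) :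
    ((rsM c t y : 𝓞 F) : F) = c.σ t (y : F) :=
  rfl

lemma mem_actM (c : CycM m F) (t : (ZMod m)ˣ) (P : HeightOneSpectrum (𝓞 F)) (y : 𝓞 F) :
    y ∈ (actM c t P).asIdeal ↔ rsM c t y ∈ P.asIdeal := Iff.rfl

lemma actM_pow (c : CycM m F) (t : (ZMod m)ˣ) (P : HeightOneSpectrum (𝓞 F)) (n : ℕ) (y : 𝓞 F) :
    y ∈ (actM c t P).asIdeal ^ n ↔ rsM c t y ∈ P.asIdeal ^ n := by
  have h1 : (actM c t P).asIdeal = P.asIdeal.map (rsM c t).symm := by
    rw [Ideal.map_symm]; rfl
  rw [h1, ← Ideal.map_pow, Ideal.map_symm, Ideal.mem_comap]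

lemma intVal_actM (c : CycM m F) (t : (ZMod m)ˣ) (P : HeightOneSpectrum (𝓞 F)) (y : 𝓞 F) :
    (actM c t P).intValuation y = P.intValuation (rsM c t y) := by
  apply val_ext (intValuation_le_one _ _) (intValuation_le_one _ _)
  intro n
  rw [intValuation_le_pow_iff_mem, intValuation_le_pow_iff_mem, actM_pow]

/-- `v_(σ⁻¹ P)(y) = v_P(σ y)` -/
lemma val_actM (c : CycM m F) (t : (ZMod m)ˣ) (P : HeightOneSpectrum (𝓞 F)) (y : F) :
    (actM c t P).valuation F y = P.valuation F (c.σ t y) := by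
  obtain ⟨a, b, hb, rfl⟩ := IsFractionRing.div_surjective (A := 𝓞 F) y
  rw [map_div₀, map_div₀, map_div₀]
  have h1 : ∀ a : 𝓞 F, (actM c t P).valuation F (algebraMap (𝓞 F) F a) =
      P.valuation F (c.σ t (algebraMap (𝓞 F) F a)) := by
    intro a
    have h2 : c.σ t (algebraMap (𝓞 F) F a) = algebraMap (𝓞 F) F (rsM c t a) := rfl
    rw [h2, valuation_of_algebraMap, valuation_of_algebraMap, intVal_actM]
  rw [h1, h1]

lemma zM_ne (c : CycM m F) : c.z ≠ 0 := c.prim.ne_zero (NeZero.ne m)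

omit [NeZero m] in
/-- two homomorphisms which agree on `z` agree -/
lemma hom_extM (c : CycM m F) {K : Type*} [Field K] [CharZero K] {f g : F →+* K}
    (h : f c.z = g c.z) : f = g := by
  ext y
  have h1 : ∀ y : 𝓞 F, f (y : F) = g (y : F) := by
    intro y
    obtain ⟨P, hP⟩ := c.gen y y.isIntegral_coe
    rw [hP, Polynomial.aeval_def, Polynomial.hom_eval₂, Polynomial.hom_eval₂, h]
    congr 1
    ext n
    simp
  obtain ⟨a, b, hb, rfl⟩ := IsFractionRing.div_surjective (A := 𝓞 F) y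
  rw [map_div₀, map_div₀]
  have h2 := h1 a
  have h3 := h1 b
  rw [RingOfIntegers.coe_eq_algebraMap] at h2 h3
  rw [h2, h3]

/-- the composition of two embeddings with an automorphism -/
lemma exists_sigmaM (c : CycM m F) {K : Type*} [Field K] [CharZero K] (f g : F →+* K) :
    ∃ s : (ZMod m)ˣ, g = f.comp (c.σ s : F →+* F) := by
  have hm : 0 < m := Nat.pos_of_ne_zero (NeZero.ne m)
  have hf : IsPrimitiveRoot (f c.z) m := c.prim.map_of_injective f.injective
  have hg : IsPrimitiveRoot (g c.z) m := c.prim.map_of_injective g.injective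
  obtain ⟨i, hi, h1⟩ := hf.eq_pow_of_pow_eq_one hg.pow_eq_one
  have hcop : i.Coprime m := by
    rw [← h1] at hg
    exact (hf.pow_iff_coprime hm i).mp hg
  refine ⟨ZMod.unitOfCoprime i hcop, ?_⟩
  apply hom_extM c
  rw [RingHom.comp_apply]
  have h2 : ((c.σ (ZMod.unitOfCoprime i hcop) : F →+* F)) c.z = c.z ^ i := by
    show c.σ (ZMod.unitOfCoprime i hcop) c.z = _
    rw [c.σ_z, ZMod.coe_unitOfCoprime, ZMod.val_natCast, Nat.mod_eq_of_lt hi]
  rw [h2, map_pow, h1]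

/-- complex conjugation -/
lemma conj_eqM (hm1 : 1 < m) (c : CycM m F) (φ : F →+* ℂ) (y : F) :
    (starRingEnd ℂ) (φ y) = φ (c.σ (-1) y) := by
  have hm0 : m ≠ 0 := NeZero.ne m
  have h1 : ((starRingEnd ℂ).comp φ) = φ.comp (c.σ (-1) : F →+* F) := by
    apply hom_extM c
    have h3 : φ c.z ≠ 0 := by
      rw [Ne, map_eq_zero]; exact zM_ne c
    have h2 : (starRingEnd ℂ) (φ c.z) * φ c.z = 1 := by
      have h4 : ‖φ c.z‖ = 1 := by
        have h5 : (φ c.z) ^ m = 1 := by rw [← map_pow, c.prim.pow_eq_one, map_one]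
        exact Complex.norm_eq_one_of_pow_eq_one h5 hm0
      rw [mul_comm, Complex.mul_conj, Complex.normSq_eq_norm_sq, h4]
      simp
    have h6 : φ (c.σ (-1) c.z) * φ c.z = 1 := by
      rw [← map_mul, c.σ_z]
      have h7 : ((-1 : (ZMod m)ˣ) : ZMod m).val + 1 = m := by
        rw [Units.val_neg, Units.val_one]
        obtain ⟨k, hk⟩ := Nat.exists_eq_succ_of_ne_zero hm0
        subst hk
        rw [ZMod.val_neg_one]
      rw [← pow_succ, h7, c.prim.pow_eq_one, map_one]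
    have h8 := h2.trans h6.symm
    exact mul_right_cancel₀ h3 h8
  exact congrArg (fun f => f y) h1

omit [NeZero m] in
/-- an element whose valuations and absolute values are all trivial is, up to sign, a power of
`z` -/
lemma root_of_unityM (c : CycM m F) {u : F} (hu0 : u ≠ 0)
    (hu : ∀ P : HeightOneSpectrum (𝓞 F), P.valuation F u = 1)
    (harch : ∀ φ ψ : F →+* ℂ, ‖φ u‖ ^ 2 = ‖ψ u‖ ^ 2) : ∃ i : ℕ, u = c.z ^ i ∨ u = -c.z ^ i := by
  obtain ⟨a, ha⟩ := mem_integers_of_valuation_le_one F u fun P => (hu P).le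
  obtain ⟨b, hb⟩ := mem_integers_of_valuation_le_one F u⁻¹ fun P => by
    rw [map_inv₀, hu, inv_one]
  have hab : a * b = 1 := by
    apply RingOfIntegers.coe_injective
    rw [map_mul, map_one, ha, hb, mul_inv_cancel₀ hu0]
  have hunit : IsUnit a := IsUnit.of_mul_eq_one b hab
  have hnorm : |Algebra.norm ℚ u| = 1 := by
    have h1 := NumberField.isUnit_iff_norm.mp hunit
    rw [RingOfIntegers.coe_norm] at h1
    rw [← ha]
    exact_mod_cast h1
  -- the product of all the absolute values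
  have hprod : ∏ φ : F →ₐ[ℚ] ℂ, ‖φ u‖ = 1 := by
    have h1 := Algebra.norm_eq_prod_embeddings ℚ ℂ u
    have h2 : ‖algebraMap ℚ ℂ (Algebra.norm ℚ u)‖ = 1 := by
      rw [eq_ratCast, Complex.norm_ratCast]
      exact_mod_cast hnorm
    rw [h1, norm_prod] at h2
    exact h2
  have hone : ∀ φ : F →+* ℂ, ‖φ u‖ = 1 := by
    intro φ
    have h1 : ∀ ψ : F →ₐ[ℚ] ℂ, ‖ψ u‖ = ‖φ u‖ := by
      intro ψ
      have h2 := harch (ψ : F →+* ℂ) φ
      exact (pow_left_inj₀ (norm_nonneg _) (norm_nonneg _) two_ne_zero).mp h2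
    rw [Finset.prod_congr rfl (fun ψ _ => h1 ψ), Finset.prod_const] at hprod
    have h3 : (Finset.univ : Finset (F →ₐ[ℚ] ℂ)).card ≠ 0 := by
      have : Nonempty (F →ₐ[ℚ] ℂ) := ⟨φ.toRatAlgHom⟩
      rw [Finset.card_univ]
      exact Fintype.card_ne_zero
    exact (pow_eq_one_iff_of_nonneg (norm_nonneg _) h3).mp hprod
  have hint : IsIntegral ℤ u := by
    rw [← ha]; exact a.isIntegral_coe
  obtain ⟨n, hn, hun⟩ := NumberField.Embeddings.pow_eq_one_of_norm_eq_one F ℂ hint hone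
  exact c.tors u (isOfFinOrder_iff_pow_eq_one.mpr ⟨n, hn, hun⟩)

/-- the units are split into `hfM m a` and its negative -/
lemma neg_mem_hfM {a : ℕ} (ha : 0 < a) (ham : a + 2 ≤ m) (t : (ZMod m)ˣ) :
    -t ∈ hfM m a ↔ t ∉ hfM m a := by
  have hm1 : 1 < m := by omega
  have : Fact (1 < m) := ⟨hm1⟩
  simp only [hfM, Finset.mem_filter, Finset.mem_univ, true_and]
  have ht : (t : ZMod m) ≠ 0 := t.ne_zero
  have ha0 : (a : ZMod m) ≠ 0 := by
    intro h
    rw [ZMod.natCast_eq_zero_iff] at h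
    have := Nat.le_of_dvd ha h
    omega
  have hat : (a : ZMod m) * (t : ZMod m) ≠ 0 := by
    rw [Ne, Units.mul_left_eq_zero]
    exact ha0
  have ha1 : (1 + (a : ZMod m)) ≠ 0 := by
    intro h
    have h' : ((1 + a : ℕ) : ZMod m) = 0 := by push_cast; exact h
    rw [ZMod.natCast_eq_zero_iff] at h'
    have := Nat.le_of_dvd (by omega) h'
    omega
  have hne : (t : ZMod m).val + ((a : ZMod m) * (t : ZMod m)).val ≠ m := by
    intro h
    have h1 : (((t : ZMod m).val + ((a : ZMod m) * (t : ZMod m)).val : ℕ) : ZMod m) = 0 := by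
      rw [h, ZMod.natCast_self]
    push_cast at h1
    rw [ZMod.natCast_zmod_val, ZMod.natCast_zmod_val] at h1
    have h2 : (1 + (a : ZMod m)) * (t : ZMod m) = 0 := by
      linear_combination h1
    rw [Units.mul_left_eq_zero] at h2
    exact ha1 h2
  have h3 : (t : ZMod m).val < m := ZMod.val_lt _
  have h4 : ((a : ZMod m) * (t : ZMod m)).val < m := ZMod.val_lt _
  have h5 : ((-t : (ZMod m)ˣ) : ZMod m).val = m - (t : ZMod m).val := by
    rw [Units.val_neg, ZMod.neg_val, if_neg ht]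
  have h6 : ((a : ZMod m) * ((-t : (ZMod m)ˣ) : ZMod m)).val =
      m - ((a : ZMod m) * (t : ZMod m)).val := by
    rw [Units.val_neg, mul_neg, ZMod.neg_val, if_neg hat]
  rw [h5, h6]
  omega

/-- the valuations of `thM c (hfM m a) x` -/
lemma val_thM (c : CycM m F) (a p : ℕ) {x : F} {n : HeightOneSpectrum (𝓞 F) → ℤ}
    (hn : ∀ P, P.valuation F x = exp ((p : ℤ) * n P)) (P : HeightOneSpectrum (𝓞 F)) :
    P.valuation F (thM c (hfM m a) x) =
      exp ((p : ℤ) * ∑ t ∈ hfM m a, n (actM c t⁻¹ P)) := by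
  unfold thM
  rw [map_prod, Finset.mul_sum, exp_sum]
  refine Finset.prod_congr rfl fun t _ => ?_
  rw [← val_actM, hn]

/-- the square of the absolute value of `thM c (hfM m a) x` -/
lemma norm_thM (c : CycM m F) {a : ℕ} (ha : 0 < a) (ham : a + 2 ≤ m) (φ : F →+* ℂ) (x : F) :
    φ (thM c (hfM m a) x) * (starRingEnd ℂ) (φ (thM c (hfM m a) x)) =
      ∏ t : (ZMod m)ˣ, φ (c.σ t x) := by
  classical
  rw [conj_eqM (by omega) c]
  unfold thM
  rw [map_prod, map_prod, map_prod]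
  have h1 : ∏ t : (ZMod m)ˣ, φ (c.σ t x) = ∏ t : (ZMod m)ˣ, φ (c.σ t⁻¹ x) :=
    (Fintype.prod_equiv (Equiv.inv _) _ _ fun t => by simp).symm
  have h2 : ∏ t ∈ hfM m a, φ (c.σ (-1) (c.σ t⁻¹ x)) =
      ∏ t ∈ Finset.univ.filter (fun t : (ZMod m)ˣ => ¬ t ∈ hfM m a), φ (c.σ t⁻¹ x) := by
    refine Finset.prod_nbij' (fun t => -t) (fun t => -t) ?_ ?_ ?_ ?_ ?_
    · intro t ht
      simp only [Finset.mem_filter, Finset.mem_univ, true_and]
      intro h
      exact (neg_mem_hfM ha ham t).1 h ht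
    · intro t ht
      simp only [Finset.mem_filter, Finset.mem_univ, true_and] at ht
      exact (neg_mem_hfM ha ham t).2 ht
    · intro t _; simp
    · intro t _; simp
    · intro t _
      congr 1
      have : (-t)⁻¹ = (-1) * t⁻¹ := by
        rw [inv_neg, neg_mul, one_mul]
      rw [this, map_mul]
      rfl
  have h3 : ∏ t ∈ hfM m a, φ (c.σ t⁻¹ x) =
      ∏ t ∈ Finset.univ.filter (fun t : (ZMod m)ˣ => t ∈ hfM m a), φ (c.σ t⁻¹ x) := by
    refine Finset.prod_congr ?_ fun _ _ => rfl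
    ext t
    simp
  rw [h1, h2, h3]
  exact Finset.prod_filter_mul_prod_filter_not _ _ _

/-- the absolute values of all the conjugates of `thM c (hfM m a) x` agree -/
lemma norm_thM_eq (c : CycM m F) {a : ℕ} (ha : 0 < a) (ham : a + 2 ≤ m) (φ ψ : F →+* ℂ) (x : F) :
    ‖φ (thM c (hfM m a) x)‖ ^ 2 = ‖ψ (thM c (hfM m a) x)‖ ^ 2 := by
  have h1 := norm_thM c ha ham φ x
  have h2 := norm_thM c ha ham ψ x
  obtain ⟨s, hs⟩ := exists_sigmaM c φ ψ
  have h3 : ∏ t : (ZMod m)ˣ, ψ (c.σ t x) = ∏ t : (ZMod m)ˣ, φ (c.σ t x) := by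
    rw [hs]
    refine Fintype.prod_equiv (Equiv.mulLeft s) _ _ fun t => ?_
    show φ (c.σ s (c.σ t x)) = φ (c.σ (s * t) x)
    rw [map_mul]
    rfl
  rw [h3, ← h1, Complex.mul_conj, Complex.mul_conj] at h2
  rw [Complex.normSq_eq_norm_sq, Complex.normSq_eq_norm_sq] at h2
  exact_mod_cast h2.symm

/-- **UNITM** -/
theorem t_UNITM : S_JACM → S_UNITM := by
  classical
  intro hJ m _ hm2 p hpodd a ha ham F _ _ c x hx hval hp1
  have hppos : 0 < p := hpodd.pos
  choose n hn using hval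
  have hmp : ∀ P : HeightOneSpectrum (𝓞 F), ((m : ℕ) : 𝓞 F) ∈ P.asIdeal → n P = 0 := by
    intro P hP
    have h1 := hp1 P hP
    rw [hn P, WithZero.exp_eq_one] at h1
    rcases mul_eq_zero.mp h1 with h2 | h2
    · exact absurd (by exact_mod_cast h2) hppos.ne'
    · exact h2
  -- the support is finite
  have hfin : {P : HeightOneSpectrum (𝓞 F) | n P ≠ 0}.Finite := by
    apply ((HeightOneSpectrum.Support.finite (𝓞 F) x).union
      (HeightOneSpectrum.Support.finite (𝓞 F) x⁻¹)).subset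
    intro P hP
    rcases lt_or_gt_of_ne (show n P ≠ 0 from hP) with h | h
    · right
      show 1 < P.valuation F x⁻¹
      rw [map_inv₀, hn P, ← WithZero.exp_neg, ← WithZero.exp_zero, WithZero.exp_lt_exp]
      have : (0 : ℤ) < p := by exact_mod_cast hppos
      nlinarith
    · left
      show 1 < P.valuation F x
      rw [hn P, ← WithZero.exp_zero, WithZero.exp_lt_exp]
      have : (0 : ℤ) < p := by exact_mod_cast hppos
      positivity
  set S := hfin.toFinset with hS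
  have hSm : ∀ P, P ∈ S ↔ n P ≠ 0 := fun P => by rw [hS, Set.Finite.mem_toFinset]; rfl
  have hex : ∀ Q : HeightOneSpectrum (𝓞 F), ∃ J : F, n Q ≠ 0 → (J ≠ 0 ∧
      (∃ r : ℝ, 0 < r ∧ ∀ φ : F →+* ℂ, ‖φ J‖ ^ 2 = r) ∧
      ∀ P : HeightOneSpectrum (𝓞 F), P.valuation F J =
        exp (-(((hfM m a).filter fun t => actM c t⁻¹ P = Q).card : ℤ))) := by
    intro Q
    by_cases hQ : n Q = 0
    · exact ⟨1, fun h => absurd hQ h⟩
    · obtain ⟨J, h1, h2, h3⟩ := hJ m hm2 a ha ham F c Q (fun h => hQ (hmp Q h))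
      exact ⟨J, fun _ => ⟨h1, h2, h3⟩⟩
  choose J hJ' using hex
  set γ : F := ∏ Q ∈ S, J Q ^ (-(n Q)) with hγ
  have hγ0 : γ ≠ 0 := by
    rw [hγ]
    exact Finset.prod_ne_zero_iff.mpr fun Q hQ => zpow_ne_zero _ (hJ' Q ((hSm Q).mp hQ)).1
  -- valuations of gamma
  have hγv : ∀ P : HeightOneSpectrum (𝓞 F), P.valuation F γ =
      exp (∑ t ∈ hfM m a, n (actM c t⁻¹ P)) := by
    intro P
    rw [hγ, map_prod]
    have h1 : ∀ Q ∈ S, P.valuation F (J Q ^ (-(n Q))) =
        exp (n Q * (((hfM m a).filter fun t => actM c t⁻¹ P = Q).card : ℤ)) := by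
      intro Q hQ
      rw [map_zpow₀, (hJ' Q ((hSm Q).mp hQ)).2.2 P, ← WithZero.exp_zsmul]
      congr 1
      rw [smul_eq_mul]; ring
    rw [Finset.prod_congr rfl h1, ← exp_sum]
    congr 1
    have h2 : ∀ Q ∈ S, n Q * (((hfM m a).filter fun t => actM c t⁻¹ P = Q).card : ℤ) =
        ∑ t ∈ hfM m a, if actM c t⁻¹ P = Q then n Q else 0 := by
      intro Q _
      rw [← Finset.sum_filter, Finset.sum_const, nsmul_eq_mul, mul_comm]
    rw [Finset.sum_congr rfl h2, Finset.sum_comm]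
    refine Finset.sum_congr rfl fun t _ => ?_
    rw [Finset.sum_ite_eq]
    split_ifs with h3
    · rfl
    · rw [hSm] at h3
      push Not at h3
      exact h3.symm
  -- absolute values of gamma
  have hγa : ∀ φ ψ : F →+* ℂ, ‖φ γ‖ ^ 2 = ‖ψ γ‖ ^ 2 := by
    intro φ ψ
    rw [hγ, map_prod, map_prod, norm_prod, norm_prod, ← Finset.prod_pow, ← Finset.prod_pow]
    refine Finset.prod_congr rfl fun Q hQ => ?_
    obtain ⟨r, _, hr⟩ := (hJ' Q ((hSm Q).mp hQ)).2.1
    have h1 : ∀ φ : F →+* ℂ, ‖φ (J Q ^ (-(n Q)))‖ ^ 2 = r ^ (-(n Q)) := by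
      intro φ
      rw [map_zpow₀, norm_zpow, ← hr φ, ← zpow_natCast, ← zpow_natCast, ← zpow_mul, ← zpow_mul,
        mul_comm]
    rw [h1, h1]
  have hth0 : thM c (hfM m a) x ≠ 0 := by
    unfold thM
    exact Finset.prod_ne_zero_iff.mpr fun t _ => by
      rw [Ne, map_eq_zero]; exact hx
  set u : F := thM c (hfM m a) x / γ ^ p with hu
  have hu0 : u ≠ 0 := div_ne_zero hth0 (pow_ne_zero _ hγ0)
  have huv : ∀ P : HeightOneSpectrum (𝓞 F), P.valuation F u = 1 := by
    intro P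
    rw [hu, map_div₀, map_pow, hγv, val_thM c a p hn P, ← WithZero.exp_nsmul, ← WithZero.exp_sub]
    rw [nsmul_eq_mul, sub_self, WithZero.exp_zero]
  obtain ⟨i, hi⟩ := root_of_unityM c hu0 huv (fun φ ψ => by
    rw [hu, map_div₀, map_div₀, norm_div, norm_div, div_pow, div_pow, norm_thM_eq c ha ham φ ψ x,
      map_pow, map_pow, norm_pow, norm_pow, ← pow_mul, ← pow_mul, mul_comm p 2, pow_mul, pow_mul,
      hγa φ ψ])
  have hmain : thM c (hfM m a) x = u * γ ^ p := by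
    rw [hu, div_mul_cancel₀ _ (pow_ne_zero _ hγ0)]
  rcases hi with hi | hi
  · exact ⟨γ, hγ0, i, by rw [hmain, hi]⟩
  · refine ⟨-γ, neg_ne_zero.mpr hγ0, i, ?_⟩
    rw [hmain, hi, Odd.neg_pow hpodd]
    ring

end Pool.Agent.K3h55.RQ
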