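import Pool.Agent.K3h44.RQ.Stm2

/-!
# Brick CN3 of project RQ: the index of the group generated by a unit of a real quadratic field
-/

set_option autoImplicit false

namespace Pool.Agent.K3h55.RQ.CN3

open NumberField NumberField.InfinitePlace NumberField.Units Pool.Agent.K3h44.RQ

variable {K : Type} [Field K] [NumberField K]

lemma real_place (hre : ∀ φ : K →+* ℂ, ComplexEmbedding.IsReal φ) (w : InfinitePlace K) :
    IsReal w := by
  rw [isReal_iff]
  exact hre _

lemma card_places (h2 : Module.finrank ℚ K = 2)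
    (hre : ∀ φ : K →+* ℂ, ComplexEmbedding.IsReal φ) : Fintype.card (InfinitePlace K) = 2 := by
  classical
  have h := sum_mult_eq (K := K)
  rw [h2] at h
  rw [← h, Fintype.card_eq_sum_ones]
  refine Finset.sum_congr rfl fun w _ => ?_
  rw [mult_isReal ⟨w, real_place hre w⟩]

lemma reg_const (h2 : Module.finrank ℚ K = 2)
    (hre : ∀ φ : K →+* ℂ, ComplexEmbedding.IsReal φ) (η : (𝓞 K)ˣ) (φ : K →+* ℂ) :
    regOfFamily (fun _ : Fin (rank K) => η) = |Real.log ‖φ ((η : 𝓞 K) : K)‖| := by
  classical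
  have hc := card_places h2 hre
  have hr : rank K = 1 := by rw [rank, hc]
  obtain ⟨w', hw'⟩ : ∃ w' : InfinitePlace K, mk φ ≠ w' := by
    have : Nontrivial (InfinitePlace K) := by
      rw [← Fintype.one_lt_card_iff_nontrivial, hc]; norm_num
    obtain ⟨w', h⟩ := exists_ne (mk φ)
    exact ⟨w', h.symm⟩
  have hc1 : Fintype.card {w : InfinitePlace K // w ≠ w'} = 1 := by
    rw [Fintype.card_subtype_compl, hc, Fintype.card_subtype_eq]
  have e : {w : InfinitePlace K // w ≠ w'} ≃ Fin (rank K) :=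
    Fintype.equivOfCardEq (by rw [hc1, Fintype.card_fin, hr])
  rw [regOfFamily_eq_det _ w' e, Matrix.det_eq_elem_of_card_eq_one hc1 ⟨mk φ, hw'⟩,
    Matrix.of_apply]
  congr 1
  show ((mk φ).mult : ℝ) * Real.log ((mk φ) ((η : 𝓞 K) : K)) = _
  rw [mult_isReal ⟨mk φ, real_place hre _⟩, Nat.cast_one, one_mul, apply]

lemma torsion_real (φ : K →+* ℂ) (hφ : ComplexEmbedding.IsReal φ) (z : (𝓞 K)ˣ)
    (hz : z ∈ torsion K) : z = 1 ∨ z = -1 := by
  rw [torsion, CommGroup.mem_torsion, isOfFinOrder_iff_pow_eq_one] at hz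
  obtain ⟨n, hn, h⟩ := hz
  have h1 : ((z : 𝓞 K) : K) ^ n = 1 := by
    have := congrArg (fun x : (𝓞 K)ˣ => ((x : 𝓞 K) : K)) h
    simpa using this
  have h3 : (hφ.embedding ((z : 𝓞 K) : K)) ^ n = 1 := by rw [← map_pow, h1, map_one]
  have h4 : hφ.embedding ((z : 𝓞 K) : K) = 1 ∨ hφ.embedding ((z : 𝓞 K) : K) = -1 := by
    rcases pow_eq_one_iff_cases.1 h3 with h | h | h
    · omega
    · exact Or.inl h
    · exact Or.inr h.1
  rcases h4 with h4 | h4
  · left
    have h5 : ((z : 𝓞 K) : K) = 1 := hφ.embedding.injective (by rw [h4, map_one])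
    exact Units.ext (RingOfIntegers.ext h5)
  · right
    have h5 : ((z : 𝓞 K) : K) = -1 := hφ.embedding.injective (by rw [h4, map_neg, map_one])
    apply Units.ext
    apply RingOfIntegers.ext
    rw [h5]
    simp

/-- the index of the group generated by a unit of a real quadratic field -/
theorem t_CN3 : S_CN3 := by
  classical
  intro K _ _ h2 hre η φ hη
  have hd := regOfFamily_div_regulator (fun _ : Fin (rank K) => η)
  rw [reg_const h2 hre η φ, div_eq_iff (regulator_pos K).ne'] at hd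
  refine ⟨_, ?_, hd.symm, ?_⟩
  · intro h0
    rw [h0, Nat.cast_zero, zero_mul, abs_eq_zero] at hd
    exact hη hd
  · intro u
    obtain ⟨y, hy, z, hz, hyz⟩ := Subgroup.mem_sup.1 (Subgroup.pow_index_mem
      (Subgroup.closure (Set.range (fun _ : Fin (rank K) => η)) ⊔ torsion K) u)
    have hy' : y ∈ Subgroup.closure ({η} : Set (𝓞 K)ˣ) := by
      refine Subgroup.closure_mono ?_ hy
      rintro _ ⟨i, rfl⟩
      exact rfl
    obtain ⟨k, rfl⟩ := Subgroup.mem_closure_singleton.1 hy'
    refine ⟨k, ?_⟩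
    rcases torsion_real φ (hre φ) z hz with rfl | rfl
    · left
      rw [← hyz, mul_one]
    · right
      rw [← hyz, mul_neg, mul_one]

end Pool.Agent.K3h55.RQ.CN3
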